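import Pool.Agent.H91.ApproxExp

set_option autoImplicit false

open Filter Topology Set MeasureTheory H91.ApproxExp in
theorem Pool.Agent.Results.MP_868b62_an.DigitMap.result :
    ∃ φ : ℝ → ℝ, Measurable φ ∧ Function.Injective φ ∧ (∀ x, φ x ∈ Ioo (0:ℝ) 1) ∧
    ∀ x t : ℝ, Tendsto (fun r => (volume {h ∈ Ioo 0 r | |(φ (x + h) - φ x) / h| < t}).toReal / r)
      (𝓝[>] 0) (𝓝 0) :=
  main
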